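import Mathlib

/-!
# A membership test by points for square systems

`F i` (`i : I`) polynomials in the variables `I` over a domain `R`, `J` the Jacobian determinant.
If `G` vanishes at all the points, over fields which contain `R`, at which all the `F i` vanish and
`J` does not, then `J ^ n * G` is in the ideal of the `F i` for some `n`: the localization of
`R[I] / (F)` at `J` is etale over `R`, hence flat, and an etale algebra over a field is reduced.
-/

set_option autoImplicit false

namespace Pool.Agent.Helper24.MP

open MvPolynomial TensorProduct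

section one

variable {R : Type} [CommRing R]

theorem etale_of {ι : Type} [Fintype ι] [DecidableEq ι] (v : ι → MvPolynomial ι R)
    (h : IsUnit (Ideal.Quotient.mk (Ideal.span <| Set.range v)
      (Matrix.of fun i j => pderiv i (v j)).det)) :
    Algebra.Etale R (MvPolynomial ι R ⧸ (Ideal.span <| Set.range v)) := by
  let P : Algebra.PreSubmersivePresentation R (MvPolynomial ι R ⧸ (Ideal.span <| Set.range v)) ι
    ι := Algebra.PreSubmersivePresentation.naive id Function.injective_id
  have hmat : P.jacobiMatrix = Matrix.of fun i j => pderiv i (v j) := by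
    ext1 i j
    rw [Algebra.PreSubmersivePresentation.jacobiMatrix_naive]
    rfl
  have hu2 : IsUnit P.jacobian := by
    rw [Algebra.PreSubmersivePresentation.jacobian_eq_jacobiMatrix_det, P.algebraMap_apply, hmat]
    have h3 : aeval (fun i => Ideal.Quotient.mk (Ideal.span <| Set.range v) (X i))
        (Matrix.of fun i j => pderiv i (v j)).det =
        Ideal.Quotient.mk _ (Matrix.of fun i j => pderiv i (v j)).det :=
      (DFunLike.congr_fun (aeval_unique
        (Ideal.Quotient.mkₐ R (Ideal.span <| Set.range v))) _).symm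
    rw [← h3] at h
    exact h
  let P' : Algebra.SubmersivePresentation R (MvPolynomial ι R ⧸ (Ideal.span <| Set.range v)) ι
    ι := ⟨P, hu2⟩
  have hd : P'.dimension = 0 := by
    rw [Algebra.Presentation.dimension, Nat.sub_self]
  have := P'.isStandardSmoothOfRelativeDimension hd
  infer_instance

variable {I : Type}

/-- The relations. -/
noncomputable def rl (F : I → MvPolynomial I R) (J : MvPolynomial I R) :
    I ⊕ Unit → MvPolynomial (I ⊕ Unit) R :=
  Sum.elim (fun i => rename Sum.inl (F i)) fun _ => X (Sum.inr ()) * rename Sum.inl J - 1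

/-- The algebra of the solutions with `J` invertible. -/
abbrev So (F : I → MvPolynomial I R) (J : MvPolynomial I R) :=
  MvPolynomial (I ⊕ Unit) R ⧸ (Ideal.span <| Set.range (rl F J))

/-- The Jacobian determinant. -/
noncomputable def jc [Fintype I] [DecidableEq I] (F : I → MvPolynomial I R) : MvPolynomial I R :=
  (Matrix.of fun i j => pderiv j (F i)).det

theorem pd_inl (j : I) (F : MvPolynomial I R) :
    pderiv (Sum.inl j) (rename (Sum.inl : I → I ⊕ Unit) F) = rename Sum.inl (pderiv j F) :=
  pderiv_rename Sum.inl_injective j F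

theorem pd_inr (u : Unit) (F : MvPolynomial I R) :
    pderiv (Sum.inr u) (rename (Sum.inl : I → I ⊕ Unit) F) = 0 := by
  classical
  induction F using MvPolynomial.induction_on with
  | C a => simp
  | add p q hp hq => simp [hp, hq]
  | mul_X p s hp =>
    rw [map_mul, Derivation.leibniz, hp]
    simp

theorem etale_so [Fintype I] [DecidableEq I] (F : I → MvPolynomial I R) :
    Algebra.Etale R (So F (jc F)) := by
  refine etale_of _ ?_
  have hmat : (Matrix.of fun i j => pderiv i (rl F (jc F) j)) = Matrix.fromBlocks
      ((Matrix.of fun i j => rename Sum.inl (pderiv j (F i))).transpose)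
      (Matrix.of fun j _ => X (Sum.inr ()) * rename Sum.inl (pderiv j (jc F))) 0
      (Matrix.of fun _ _ => rename Sum.inl (jc F)) := by
    ext1 i j
    rcases i with i | i <;> rcases j with j | j
    · simp [rl, pd_inl]
    · simp [rl, pd_inl, pderiv_X, Derivation.leibniz]
    · simp [rl, pd_inr]
    · simp [rl, pd_inr, pderiv_X, Derivation.leibniz]
  have hdet : (Matrix.of fun i j => pderiv i (rl F (jc F) j)).det =
      rename Sum.inl (jc F) * rename Sum.inl (jc F) := by
    rw [hmat, Matrix.det_fromBlocks_zero₂₁, Matrix.det_transpose]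
    congr 1
    · rw [jc, AlgHom.map_det]
      rfl
    · simp
  have h1 : Ideal.Quotient.mk (Ideal.span <| Set.range (rl F (jc F))) (rename Sum.inl (jc F)) *
      Ideal.Quotient.mk _ (X (Sum.inr ())) = 1 := by
    rw [← map_mul, ← map_one (Ideal.Quotient.mk _), Ideal.Quotient.eq]
    refine Ideal.subset_span ⟨Sum.inr (), ?_⟩
    simp only [rl, Sum.elim_inr]
    ring
  have hu : IsUnit (Ideal.Quotient.mk (Ideal.span <| Set.range (rl F (jc F)))
      (rename Sum.inl (jc F))) := isUnit_iff_exists_inv.2 ⟨_, h1⟩
  rw [hdet, map_mul]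
  exact hu.mul hu

/-- In a reduced ring an element which vanishes at all field points is zero. -/
theorem eq_zero_of_points {B : Type} [CommRing B] [IsReduced B] (b : B)
    (h : ∀ (Ω : Type) [Field Ω] (g : B →+* Ω), g b = 0) : b = 0 := by
  suffices hz : b ∈ nilradical B by
    rw [nilradical_eq_zero B] at hz
    exact hz
  rw [nilradical_eq_sInf, Ideal.mem_sInf]
  intro p hp
  have hp' : p.IsPrime := hp
  have h3 := h (FractionRing (B ⧸ p)) ((algebraMap (B ⧸ p) _).comp (Ideal.Quotient.mk p))
  have h4 : algebraMap (B ⧸ p) (FractionRing (B ⧸ p)) (Ideal.Quotient.mk p b) = 0 := h3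
  rw [← map_zero (algebraMap (B ⧸ p) (FractionRing (B ⧸ p)))] at h4
  exact Ideal.Quotient.eq_zero_iff_mem.1 (IsFractionRing.injective _ _ h4)

/-- In an etale algebra over a domain an element which vanishes at all the field points over the
generic point is zero. -/
theorem eq_zero_of_etale {R S L : Type} [CommRing R] [IsDomain R] [CommRing S] [Algebra R S]
    [Algebra.Etale R S] [Field L] [Algebra R L] [IsFractionRing R L] (s : S)
    (h : ∀ (Ω : Type) [Field Ω] (g : S →+* Ω), Function.Injective (g.comp (algebraMap R S)) →
      g s = 0) : s = 0 := by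
  have hinj : Function.Injective
      (Algebra.TensorProduct.includeRight : S →ₐ[R] L ⊗[R] S) :=
    Algebra.TensorProduct.includeRight_injective (IsFractionRing.injective R L)
  have hred : IsReduced (L ⊗[R] S) :=
    Algebra.FormallyUnramified.isReduced_of_field L (L ⊗[R] S)
  have hz : (Algebra.TensorProduct.includeRight s : L ⊗[R] S) = 0 := by
    refine eq_zero_of_points (B := L ⊗[R] S) _ ?_
    intro Ω _ g0
    refine h Ω (g0.comp (Algebra.TensorProduct.includeRight : S →ₐ[R] L ⊗[R] S).toRingHom) ?_
    have e : (g0.comp (Algebra.TensorProduct.includeRight : S →ₐ[R] L ⊗[R] S).toRingHom).comp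
        (algebraMap R S) = (g0.comp (algebraMap L (L ⊗[R] S))).comp (algebraMap R L) := by
      ext r
      show g0 (Algebra.TensorProduct.includeRight (algebraMap R S r)) =
        g0 (algebraMap L (L ⊗[R] S) (algebraMap R L r))
      rw [AlgHom.commutes, ← IsScalarTower.algebraMap_apply]
    rw [e, RingHom.coe_comp]
    exact (RingHom.injective (g0.comp (algebraMap L (L ⊗[R] S)))).comp
      (IsFractionRing.injective R L)
  apply hinj
  rw [hz, map_zero]

/-- The membership test. -/
theorem exists_pow_mem [IsDomain R] [Fintype I] [DecidableEq I] (F : I → MvPolynomial I R)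
    (G : MvPolynomial I R)
    (h : ∀ (Ω : Type) [Field Ω] (f : R →+* Ω) (x : I → Ω), Function.Injective f →
      (∀ i, eval₂ f x (F i) = 0) → eval₂ f x (jc F) ≠ 0 → eval₂ f x G = 0) :
    ∃ n, jc F ^ n * G ∈ Ideal.span (Set.range F) := by
  classical
  have hE := etale_so F
  set S := So F (jc F) with hS
  set q : MvPolynomial (I ⊕ Unit) R →+* S := Ideal.Quotient.mk _ with hq
  -- the image of `G` is zero
  have h0 : q (rename Sum.inl G) = 0 := by
    refine eq_zero_of_etale (R := R) (S := S) (L := FractionRing R) _ ?_
    intro Ω _ g0 hg0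
    let g : MvPolynomial (I ⊕ Unit) R →+* Ω := g0.comp q
    let f : R →+* Ω := g.comp C
    let x : I → Ω := fun i => g (X (Sum.inl i))
    have hf : Function.Injective f := hg0
    have hev : ∀ P : MvPolynomial I R, eval₂ f x P = g (rename Sum.inl P) := by
      intro P
      induction P using MvPolynomial.induction_on with
      | C a => rw [eval₂_C, rename_C]; rfl
      | add p q hp hq => rw [eval₂_add, hp, hq, map_add, map_add]
      | mul_X p s hp => rw [eval₂_mul, hp, eval₂_X, map_mul, map_mul, rename_X]
    have hrel : ∀ v, g (rl F (jc F) v) = 0 := by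
      intro v
      show g0 (q (rl F (jc F) v)) = 0
      have : q (rl F (jc F) v) = 0 := Ideal.Quotient.eq_zero_iff_mem.2 (Ideal.subset_span ⟨v, rfl⟩)
      rw [this, map_zero]
    have hG := h Ω f x hf (fun i => by
      rw [hev]
      exact hrel (Sum.inl i)) (fun hz => by
      rw [hev] at hz
      have h2 := hrel (Sum.inr ())
      simp only [rl, Sum.elim_inr, map_sub, map_mul, map_one, hz, mul_zero, zero_sub,
        neg_eq_zero] at h2
      exact one_ne_zero h2)
    rw [hev] at hG
    exact hG
  -- back to the ideal
  set T := MvPolynomial I R ⧸ Ideal.span (Set.range F) with hT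
  set j : T := Ideal.Quotient.mk _ (jc F) with hj
  set A := Localization.Away j with hA
  let θ : MvPolynomial I R →+* A := (algebraMap T A).comp (Ideal.Quotient.mk _)
  let y : I ⊕ Unit → A := Sum.elim (fun i => θ (X i)) fun _ => IsLocalization.Away.invSelf j
  let Θ : MvPolynomial (I ⊕ Unit) R →+* A := eval₂Hom (θ.comp C) y
  have hΘ : ∀ P : MvPolynomial I R, Θ (rename Sum.inl P) = θ P := by
    intro P
    show eval₂ _ _ (rename Sum.inl P) = _
    rw [eval₂_rename]
    induction P using MvPolynomial.induction_on with
    | C a => rw [eval₂_C]; rfl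
    | add p q hp hq => rw [eval₂_add, hp, hq, map_add]
    | mul_X p s hp => rw [eval₂_mul, hp, eval₂_X, map_mul]; rfl
  have hker : Ideal.span (Set.range (rl F (jc F))) ≤ RingHom.ker Θ := by
    rw [Ideal.span_le]
    rintro _ ⟨v, rfl⟩
    rw [SetLike.mem_coe, RingHom.mem_ker]
    rcases v with i | u
    · show Θ (rename Sum.inl (F i)) = 0
      rw [hΘ]
      show algebraMap T A (Ideal.Quotient.mk _ (F i)) = 0
      have e0 : Ideal.Quotient.mk (Ideal.span (Set.range F)) (F i) = 0 :=
        Ideal.Quotient.eq_zero_iff_mem.2 (Ideal.subset_span ⟨i, rfl⟩)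
      rw [e0, map_zero]
    · show Θ (X (Sum.inr ()) * rename Sum.inl (jc F) - 1) = 0
      rw [map_sub, map_mul, hΘ, map_one]
      have e1 : Θ (X (Sum.inr ())) = IsLocalization.Away.invSelf j := by
        show eval₂ _ _ (X (Sum.inr ())) = _
        rw [eval₂_X]
        rfl
      have e2 : θ (jc F) = algebraMap T A j := rfl
      rw [e1, e2, mul_comm, IsLocalization.Away.mul_invSelf, sub_self]
  have h4 : Θ (rename Sum.inl G) = 0 := by
    rw [← RingHom.mem_ker]
    exact hker (Ideal.Quotient.eq_zero_iff_mem.1 h0)
  rw [hΘ] at h4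
  have h5 : algebraMap T A (Ideal.Quotient.mk _ G) = 0 := h4
  obtain ⟨⟨_, n, rfl⟩, hn⟩ := (IsLocalization.map_eq_zero_iff (Submonoid.powers j) A _).1 h5
  refine ⟨n, Ideal.Quotient.eq_zero_iff_mem.1 ?_⟩
  rw [map_mul, map_pow]
  exact hn

end one

end Pool.Agent.Helper24.MP
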