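import Mathlib
import Pool.Agent.Helper24.MP.Et

/-!
# The membership test in coordinates

The same test for polynomials over a field `K` in variables `σ`, where the unknowns are the
variables `ι j` and the other variables are parameters.
-/

set_option autoImplicit false

namespace Pool.Agent.Helper24.MP

open MvPolynomial

section two

variable {K σ I : Type} [Field K]

open Classical in
/-- The unknowns and the parameters. -/
noncomputable def spl (ι : I → σ) (hι : Function.Injective ι) :
    I ⊕ {q : σ // q ∉ Set.range ι} ≃ σ :=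
  (Equiv.sumCongr (Equiv.ofInjective ι hι) (Equiv.refl _)).trans
    (Equiv.Set.sumCompl (Set.range ι))

theorem spl_inl (ι : I → σ) (hι : Function.Injective ι) (i : I) :
    spl ι hι (Sum.inl i) = ι i := by
  classical
  simp only [spl, Equiv.trans_apply, Equiv.sumCongr_apply, Sum.map_inl]
  exact Equiv.Set.sumCompl_apply_inl _ _

theorem spl_inr (ι : I → σ) (hι : Function.Injective ι) (q : {q : σ // q ∉ Set.range ι}) :
    spl ι hι (Sum.inr q) = q := by
  classical
  simp only [spl, Equiv.trans_apply, Equiv.sumCongr_apply, Sum.map_inr, Equiv.refl_apply]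
  exact Equiv.Set.sumCompl_apply_inr _ _

/-- Polynomials in the unknowns with coefficients in the parameters. -/
noncomputable def sep (K : Type) [Field K] (ι : I → σ) (hι : Function.Injective ι) :
    MvPolynomial σ K ≃ₐ[K] MvPolynomial I (MvPolynomial {q : σ // q ∉ Set.range ι} K) :=
  (renameEquiv K (spl ι hι).symm).trans (sumAlgEquiv K I {q : σ // q ∉ Set.range ι})

theorem sep_unk (ι : I → σ) (hι : Function.Injective ι) (i : I) :
    sep K ι hι (X (ι i)) = X i := by
  have h : (spl ι hι).symm (ι i) = Sum.inl i := by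
    rw [Equiv.symm_apply_eq, spl_inl]
  simp [sep, h]

theorem sep_par (ι : I → σ) (hι : Function.Injective ι) (q : {q : σ // q ∉ Set.range ι}) :
    sep K ι hι (X q) = C (X q) := by
  have h : (spl ι hι).symm q = Sum.inr q := by
    rw [Equiv.symm_apply_eq, spl_inr]
  simp [sep, h]

theorem sep_C (ι : I → σ) (hι : Function.Injective ι) (a : K) :
    sep K ι hι (C a) = C (C a) := by
  simp [sep]

theorem sep_pderiv (ι : I → σ) (hι : Function.Injective ι) (j : I) (P : MvPolynomial σ K) :
    pderiv j (sep K ι hι P) = sep K ι hι (pderiv (ι j) P) := by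
  classical
  induction P using MvPolynomial.induction_on with
  | C a => rw [sep_C, pderiv_C, pderiv_C, map_zero]
  | add p q hp hq => rw [map_add, map_add, map_add, map_add, hp, hq]
  | mul_X p s hp =>
    rw [map_mul, Derivation.leibniz, Derivation.leibniz, map_add, hp]
    simp only [smul_eq_mul, map_mul]
    congr 2
    by_cases hs : s ∈ Set.range ι
    · obtain ⟨i, rfl⟩ := hs
      rw [sep_unk, pderiv_X, pderiv_X]
      by_cases hij : i = j
      · subst hij
        simp
      · rw [Pi.single_eq_of_ne (fun h => hij h), Pi.single_eq_of_ne (fun h => hij (hι h)), map_zero]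
    · have e1 : sep K ι hι (X s) = C (X ⟨s, hs⟩) := sep_par ι hι ⟨s, hs⟩
      rw [e1, pderiv_C, pderiv_X, Pi.single_eq_of_ne (fun h => hs ⟨j, h.symm⟩), map_zero]

/-- The membership test. -/
theorem exists_pow_mem_of_points [Fintype I] [DecidableEq I] (ι : I → σ)
    (hι : Function.Injective ι) (F : I → MvPolynomial σ K) (G : MvPolynomial σ K)
    (h : ∀ (Ω : Type) [Field Ω] [Algebra K Ω] (y : σ → Ω),
      AlgebraicIndependent K (fun q : {q : σ // q ∉ Set.range ι} => y q) →
      (∀ i, aeval y (F i) = 0) →
      aeval y (Matrix.of fun i j => pderiv (ι j) (F i)).det ≠ 0 → aeval y G = 0) :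
    ∃ n, (Matrix.of fun i j => pderiv (ι j) (F i)).det ^ n * G ∈ Ideal.span (Set.range F) := by
  classical
  have hJ : jc (fun i => sep K ι hι (F i)) =
      sep K ι hι (Matrix.of fun i j => pderiv (ι j) (F i)).det := by
    rw [AlgEquiv.map_det, jc]
    congr 1
    ext1 i j
    show pderiv j (sep K ι hι (F i)) = sep K ι hι (pderiv (ι j) (F i))
    exact sep_pderiv ι hι j (F i)
  obtain ⟨n, hn⟩ := exists_pow_mem (fun i => sep K ι hι (F i)) (sep K ι hι G) (by
    intro Ω _ f x hf hF hJ0
    letI : Algebra K Ω := (f.comp C).toAlgebra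
    let y : σ → Ω := fun s => Sum.elim x (fun q => f (X q)) ((spl ι hι).symm s)
    have hy1 : ∀ i, y (ι i) = x i := by
      intro i
      have h : (spl ι hι).symm (ι i) = Sum.inl i := by
        rw [Equiv.symm_apply_eq, spl_inl]
      show Sum.elim x (fun q => f (X q)) ((spl ι hι).symm (ι i)) = x i
      rw [h, Sum.elim_inl]
    have hy2 : ∀ q : {q : σ // q ∉ Set.range ι}, y q = f (X q) := by
      intro q
      have h : (spl ι hι).symm q = Sum.inr q := by
        rw [Equiv.symm_apply_eq, spl_inr]
      show Sum.elim x (fun q => f (X q)) ((spl ι hι).symm q) = f (X q)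
      rw [h, Sum.elim_inr]
    have hev : ∀ P, aeval y P = eval₂ f x (sep K ι hι P) := by
      intro P
      induction P using MvPolynomial.induction_on with
      | C a =>
        rw [aeval_C, sep_C, eval₂_C]
        rfl
      | add p q hp hq => rw [map_add, map_add, eval₂_add, hp, hq]
      | mul_X p s hp =>
        rw [map_mul, map_mul, eval₂_mul, hp, aeval_X]
        congr 1
        by_cases hs : s ∈ Set.range ι
        · obtain ⟨i, rfl⟩ := hs
          rw [sep_unk, eval₂_X, hy1]
        · have e1 : sep K ι hι (X s) = C (X ⟨s, hs⟩) := sep_par ι hι ⟨s, hs⟩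
          rw [e1, eval₂_C]
          exact hy2 ⟨s, hs⟩
    have hind : AlgebraicIndependent K (fun q : {q : σ // q ∉ Set.range ι} => y q) := by
      let f' : MvPolynomial {q : σ // q ∉ Set.range ι} K →ₐ[K] Ω := ⟨f, fun a => rfl⟩
      have e : (aeval fun q : {q : σ // q ∉ Set.range ι} => y q) = f' := by
        apply MvPolynomial.algHom_ext
        intro q
        rw [aeval_X, hy2]
        rfl
      rw [AlgebraicIndependent, e]
      exact hf
    have h1 := h Ω y hind (fun i => by rw [hev]; exact hF i) (by rw [hev, ← hJ]; exact hJ0)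
    rw [← hev]
    exact h1)
  refine ⟨n, ?_⟩
  have e2 : Ideal.span (Set.range fun i => sep K ι hι (F i)) =
      (Ideal.span (Set.range F)).map (sep K ι hι) := by
    rw [Ideal.map_span, ← Set.range_comp]
    rfl
  rw [hJ, e2, ← map_pow, ← map_mul] at hn
  have h3 : (Matrix.of fun i j => pderiv (ι j) (F i)).det ^ n * G ∈
      ((Ideal.span (Set.range F)).map (sep K ι hι)).comap (sep K ι hι) := hn
  rwa [Ideal.comap_map_of_bijective (sep K ι hι) (sep K ι hι).bijective] at h3

end two

end Pool.Agent.Helper24.MP
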