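import Mathlib
import Pool.Agent.Helper15.WE22

/-!
# Mixed products: the substitution automorphism and the transport of `IsGenusOne`
-/

namespace Pool.Agent.Helper24.MP

open Pool.Agent.Helper15

universe u

/-- `IsGenusOne` is invariant under automorphisms of the function field. -/
theorem isGenusOne_map {K E : Type u} [Field K] [Field E] [Algebra K E]
    {B : IntermediateField K E} (h : IsGenusOne B) (σ : E ≃ₐ[K] E) :
    IsGenusOne (B.map (σ : E →ₐ[K] E)) := by
  let Ω := AlgebraicClosure E
  let B' : IntermediateField K E := B.map (σ : E →ₐ[K] E)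
  let τ : Ω ≃+* Ω := IsAlgClosure.equivOfEquiv Ω Ω (σ : E ≃+* E)
  have hτ : ∀ e : E, τ (algebraMap E Ω e) = algebraMap E Ω (σ e) := fun e =>
    IsAlgClosure.equivOfEquiv_algebraMap Ω Ω (σ : E ≃+* E) e
  let f : B →+* B' := ((σ : E →+* E).comp (algebraMap B E)).codRestrict B' fun b =>
    ⟨b.1, b.2, rfl⟩
  have hfv : ∀ b : B, ((f b : B') : E) = σ b := fun b => rfl
  have hfs : Function.Surjective f := by
    rintro ⟨e, b, hb, rfl⟩
    exact ⟨⟨b, hb⟩, rfl⟩
  have hfi : Function.Injective f := f.injective
  have hcE : RingHom.comp (algebraMap B' E) f = RingHom.comp (σ : E →+* E) (algebraMap B E) := rfl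
  have hcΩ : RingHom.comp (algebraMap B' Ω) f = RingHom.comp (τ : Ω →+* Ω) (algebraMap B Ω) := by
    ext b
    exact (hτ b).symm
  have hal : ∀ w : Ω, IsAlgebraic B w → IsAlgebraic B' (τ w) := fun w hw =>
    hw.ringHom_of_comp_eq f (τ : Ω →+* Ω) hfi hcΩ
  have hal' : ∀ w : Ω, IsAlgebraic B' (τ w) → IsAlgebraic B w := fun w hw =>
    hw.of_ringHom_of_comp_eq f (τ : Ω →+* Ω) hfs τ.injective hcΩ
  refine ⟨fun e he => ?_, ?_⟩
  · obtain ⟨e0, rfl⟩ := σ.surjective e
    have h1 : IsAlgebraic B e0 :=
      IsAlgebraic.of_ringHom_of_comp_eq f (σ : E →+* E) he hfs σ.injective hcE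
    exact ⟨e0, h.closed e0 h1, rfl⟩
  · obtain ⟨x, y, a, b, hx, he, hd, ht⟩ := h.ell
    have hmem : ∀ c : algebraicClosure B Ω, τ c ∈ algebraicClosure B' Ω := fun c =>
      mem_algebraicClosure_iff.mpr (hal _ (mem_algebraicClosure_iff.mp c.2))
    refine ⟨τ x, τ y, ⟨τ a, hmem a⟩, ⟨τ b, hmem b⟩, fun h1 => hx (hal' x h1), ?_, ?_, ?_⟩
    · have := congrArg τ he
      simpa only [map_pow, map_add, map_mul] using this
    · intro h0
      apply hd
      have h1 : 4 * (τ a) ^ 3 + 27 * (τ b) ^ 2 = (0 : Ω) := by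
        have h5 := congrArg (algebraMap (algebraicClosure B' Ω) Ω) h0
        rw [map_add, map_mul, map_mul, map_pow, map_pow, map_ofNat, map_ofNat, map_zero] at h5
        exact h5
      have h2 : τ ((4 * a ^ 3 + 27 * b ^ 2 : algebraicClosure B Ω) : Ω) = 0 := by
        have h3 : ((4 * a ^ 3 + 27 * b ^ 2 : algebraicClosure B Ω) : Ω) =
            4 * (a : Ω) ^ 3 + 27 * (b : Ω) ^ 2 := by
          push_cast
          rfl
        rw [h3]
        rw [map_add, map_mul, map_mul, map_pow, map_pow, map_ofNat, map_ofNat]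
        exact h1
      have h4 := (map_eq_zero_iff τ τ.injective).mp h2
      exact_mod_cast h4
    · rw [← IntermediateField.toSubfield_inj] at ht ⊢
      rw [IntermediateField.adjoin_toSubfield, IntermediateField.adjoin_toSubfield] at ht ⊢
      have h1 := congrArg (Subfield.map (τ : Ω →+* Ω)) ht
      rw [RingHom.map_field_closure, RingHom.map_field_closure, Set.image_union,
        Set.image_union] at h1
      have hr : (τ : Ω →+* Ω) '' Set.range (algebraMap (algebraicClosure B Ω) Ω) =
          Set.range (algebraMap (algebraicClosure B' Ω) Ω) := by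
        ext w
        constructor
        · rintro ⟨_, ⟨c, rfl⟩, rfl⟩
          exact ⟨⟨τ c, hmem c⟩, rfl⟩
        · rintro ⟨c, rfl⟩
          obtain ⟨w, hw⟩ := τ.surjective (c : Ω)
          refine ⟨w, ⟨⟨w, mem_algebraicClosure_iff.mpr (hal' w ?_)⟩, rfl⟩, hw⟩
          rw [hw]
          exact mem_algebraicClosure_iff.mp c.2
      have hr2 : (τ : Ω →+* Ω) '' Set.range (algebraMap E Ω) = Set.range (algebraMap E Ω) := by
        ext w
        constructor
        · rintro ⟨_, ⟨c, rfl⟩, rfl⟩
          exact ⟨σ c, (hτ c).symm⟩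
        · rintro ⟨c, rfl⟩
          exact ⟨algebraMap E Ω (σ.symm c), ⟨_, rfl⟩, by
            change τ _ = _
            rw [hτ, σ.apply_symm_apply]⟩
      have hr3 : (τ : Ω →+* Ω) '' {x, y} = {τ x, τ y} := by
        rw [Set.image_pair]
        rfl
      rw [hr, hr2, hr3] at h1
      exact h1

/-- A `K`-algebra map `S → E = Frac S` which fixes a family `x` over which `S` is algebraic extends
to an automorphism of `E`. -/
theorem exists_sigma {K S E : Type u} [Field K] [CommRing S] [IsDomain S] [Algebra K S]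
    [Field E] [Algebra K E] [Algebra S E] [IsScalarTower K S E] [IsFractionRing S E]
    {W : Type*} (x : W → S) (halg : Algebra.IsAlgebraic (Algebra.adjoin K (Set.range x)) S)
    (g : S →ₐ[K] E) (hg : ∀ v, g (x v) = algebraMap S E (x v)) :
    ∃ σ : E ≃ₐ[K] E, ∀ s : S, σ (algebraMap S E s) = g s := by
  let R := Algebra.adjoin K (Set.range x)
  have hR : ∀ r : R, g (r : S) = algebraMap S E r := by
    have h1 : R ≤ AlgHom.equalizer g (IsScalarTower.toAlgHom K S E) := by
      refine Algebra.adjoin_le ?_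
      rintro _ ⟨v, rfl⟩
      exact hg v
    exact fun r => h1 r.2
  have hinj : Function.Injective g := by
    rw [injective_iff_map_eq_zero]
    intro s hs
    by_contra hne
    have h2 := Ideal.comap_ne_bot_of_algebraic_mem (R := R) (I := RingHom.ker g) hne hs
      (halg.isAlgebraic s)
    apply h2
    rw [eq_bot_iff]
    intro r hr
    have h3 : g (r : S) = 0 := hr
    rw [hR r] at h3
    have h4 : (r : S) = 0 := (map_eq_zero_iff _ (IsFractionRing.injective S E)).mp h3
    exact Subtype.ext h4
  have hRE : Module.IsTorsionFree R E := Module.IsTorsionFree.trans_faithfulSMul R S E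
  have halgE : Algebra.IsAlgebraic R E := (IsFractionRing.isAlgebraic_iff' R S E).mp halg
  let f0 : E →ₐ[K] E := IsFractionRing.liftAlgHom (g := g) hinj
  have hf0 : ∀ s : S, f0 (algebraMap S E s) = g s := fun s => by
    rw [IsFractionRing.coe_liftAlgHom]
    exact IsFractionRing.lift_algebraMap hinj s
  let f1 : E →ₐ[R] E :=
    { (f0 : E →+* E) with
      commutes' := fun r => by
        change f0 (algebraMap R E r) = algebraMap R E r
        rw [IsScalarTower.algebraMap_apply R S E]
        exact (hf0 _).trans (hR r) }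
  have hbij : Function.Bijective f1 := Algebra.IsAlgebraic.algHom_bijective f1
  exact ⟨AlgEquiv.ofBijective f0 hbij, hf0⟩

end Pool.Agent.Helper24.MP
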