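import Mathlib
import Pool.Agent.Helper24.MP.Et2
import Pool.Agent.Helper28.M.Q12
import Pool.Agent.Helper37.M.Full

/-!
# Theorem M: the ideal is prime for general coefficients

If any two points in the chart, generic for the factor `r` and with a transcendental coordinate
`x r e` over the other factors, satisfy the same polynomials over `K`, and the Jacobian determinant
is not a zero divisor modulo `idl c`, then `idl c` contains every dominant prime `P`: an element of
`P` vanishes at all field points at which the parameters are independent, so a power of the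
Jacobian determinant times it is in `idl c`.
-/

set_option autoImplicit false

namespace Pool.Agent.Helper24.MP

open MvPolynomial Pool.Agent.Helper47.M

variable {k l : ℕ} {N : Fin k → ℕ} {d : Fin l → Fin k → ℕ}

/-- A point in the chart, generic for the factor `r`, whose component `x r` is not constant. -/
structure UPt (K : Type) {E : Type} [Field K] [Field E] [Algebra K E] (c : Tx N d → K)
    (r : Fin k) (x : Pt N E) : Prop where
  eq : ∀ i, Fm (fun e => algebraMap K E (c e)) x i = 0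
  one : ∀ j, x j 0 = 1
  ind : AlgebraicIndependent K (fun q : {q : Vr N // q.1 ≠ r} => x q.1.1 q.1.2.succ)
  tr : ∃ e, Transcendental (Bf K x {r}) (x r e)

/-- All the generic points satisfy the same polynomials. -/
def Unq (K : Type) [Field K] (c : Tx N d → K) (r : Fin k) : Prop :=
  ∀ (E E' : Type) [Field E] [Field E'] [Algebra K E] [Algebra K E'] (x : Pt N E)
    (x' : Pt N E'), UPt K c r x → UPt K c r x' → ∀ F : MvPolynomial (Vr N) K,
      aeval (fun v => x v.1 v.2.succ) F = 0 → aeval (fun v => x' v.1 v.2.succ) F = 0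

theorem vj_inj {r : Fin k} (hr : N r = l + 1) :
    Function.Injective (Pool.Agent.Helper28.M.vj hr) := by
  intro j j' h
  obtain ⟨-, h2⟩ := Sigma.mk.inj_iff.1 h
  have h5 := eq_of_heq h2
  unfold Pool.Agent.Helper28.M.qj at h5
  have h6 := (finCongr hr.symm).injective h5
  exact Fin.succ_injective _ h6

variable {K : Type} [Field K]

/-- The chart point of a point of the affine space. -/
def cpt {Ω : Type} [Field Ω] (y : Vr N → Ω) : Pt N Ω := fun j => Fin.cons 1 fun q => y ⟨j, q⟩

theorem cpt_succ {Ω : Type} [Field Ω] (y : Vr N → Ω) (j : Fin k) (q : Fin (N j)) :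
    cpt y j q.succ = y ⟨j, q⟩ := by
  rw [cpt, Fin.cons_succ]

theorem Fm_cpt {Ω : Type} [Field Ω] [Algebra K Ω] (c : Tx N d → K) (y : Vr N → Ω) (i : Fin l) :
    Fm (fun e => algebraMap K Ω (c e)) (cpt y) i =
      aeval y (Fm (fun e => C (c e)) (ch K N) i) := by
  have h := Pool.Agent.Helper28.M.Fm_map (aeval y : MvPolynomial (Vr N) K →ₐ[K] Ω).toRingHom
    (fun e => (C (c e) : MvPolynomial (Vr N) K)) (ch K N) i
  have h1 : (fun e => (aeval y : MvPolynomial (Vr N) K →ₐ[K] Ω).toRingHom (C (c e))) =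
      fun e => algebraMap K Ω (c e) := by
    funext e
    exact aeval_C y (c e)
  have h2 : (fun j i => (aeval y : MvPolynomial (Vr N) K →ₐ[K] Ω).toRingHom (ch K N j i)) =
      cpt y := by
    funext j i
    unfold ch cpt
    refine Fin.cases ?_ (fun q => ?_) i
    · rw [Fin.cons_zero, Fin.cons_zero, map_one]
    · rw [Fin.cons_succ, Fin.cons_succ]
      exact aeval_X y _
  rw [h1, h2] at h
  exact h.symm

theorem upt_of_ind {Ω : Type} [Field Ω] [Algebra K Ω] (c : Tx N d → K) {r : Fin k}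
    (hr : N r = l + 1) (y : Vr N → Ω)
    (hy : AlgebraicIndependent K
      (fun q : {q : Vr N // q ∉ Set.range (Pool.Agent.Helper28.M.vj (N := N) hr)} => y q))
    (hF : ∀ i, aeval y (Fm (fun e => C (c e)) (ch K N) i) = 0) : UPt K c r (cpt y) where
  eq i := by rw [Fm_cpt]; exact hF i
  one j := rfl
  ind := by
    have h1 : ∀ q : {q : Vr N // q.1 ≠ r}, q.1 ∉
        Set.range (Pool.Agent.Helper28.M.vj (N := N) hr) := by
      rintro q ⟨j, hj⟩
      exact q.2 (by rw [← hj]; rfl)
    have h2 := hy.comp (fun q : {q : Vr N // q.1 ≠ r} => ⟨q.1, h1 q⟩) (by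
      intro q q' h
      exact Subtype.ext (Subtype.mk.inj h))
    have h3 : (fun q : {q : Vr N // q.1 ≠ r} => cpt y q.1.1 q.1.2.succ) =
        (fun q : {q : Vr N // q ∉ Set.range (Pool.Agent.Helper28.M.vj (N := N) hr)} => y q) ∘
          fun q : {q : Vr N // q.1 ≠ r} => ⟨q.1, h1 q⟩ := by
      funext q
      rw [cpt_succ]
      rfl
    rw [h3]
    exact h2
  tr := by
    let q0 : Fin (N r) := Fin.cast hr.symm 0
    have hq0 : (⟨r, q0⟩ : Vr N) ∉ Set.range (Pool.Agent.Helper28.M.vj (N := N) hr) := by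
      rintro ⟨j, hj⟩
      obtain ⟨-, h2⟩ := Sigma.mk.inj_iff.1 hj
      have h5 := eq_of_heq h2
      unfold Pool.Agent.Helper28.M.qj at h5
      have h6 := (finCongr hr.symm).injective h5
      exact Fin.succ_ne_zero _ h6
    refine ⟨q0.succ, ?_⟩
    rw [cpt_succ]
    set v := (fun q : {q : Vr N // q ∉ Set.range (Pool.Agent.Helper28.M.vj (N := N) hr)} => y q)
      with hv
    have h1 : Transcendental (IntermediateField.adjoin K (v '' {⟨⟨r, q0⟩, hq0⟩}ᶜ))
        (v ⟨⟨r, q0⟩, hq0⟩) := by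
      rw [IntermediateField.transcendental_adjoin_iff]
      exact hy.transcendental_adjoin (by simp)
    have hle : Bf K (cpt y) {r} ≤ IntermediateField.adjoin K (v '' {⟨⟨r, q0⟩, hq0⟩}ᶜ) := by
      unfold Bf
      rw [IntermediateField.adjoin_le_iff]
      rintro _ ⟨j, hj, e, rfl⟩
      refine Fin.cases ?_ (fun q => ?_) e
      · exact IntermediateField.one_mem _
      · rw [cpt_succ]
        have hj' : j ≠ r := hj
        have h2 : (⟨j, q⟩ : Vr N) ∉ Set.range (Pool.Agent.Helper28.M.vj (N := N) hr) := by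
          rintro ⟨j', h3⟩
          exact hj' (Sigma.mk.inj_iff.1 h3).1.symm
        refine IntermediateField.subset_adjoin _ _ ⟨⟨⟨j, q⟩, h2⟩, ?_, rfl⟩
        intro h3
        have h4 : (⟨j, q⟩ : Vr N) = ⟨r, q0⟩ := Subtype.mk.inj h3
        exact hj' (Sigma.mk.inj_iff.1 h4).1
    intro halg
    apply h1
    letI := (IntermediateField.inclusion hle).toRingHom.toAlgebra
    have : IsScalarTower (Bf K (cpt y) {r})
        (IntermediateField.adjoin K (v '' {⟨⟨r, q0⟩, hq0⟩}ᶜ)) Ω :=
      IsScalarTower.of_algebraMap_eq fun _ => rfl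
    exact halg.tower_top _

/-- The ideal contains every dominant prime. -/
theorem dom_le [CharZero K] (h : Ty N d) (c : Tx N d → K) {r : Fin k} (hr : N r = l + 1)
    (hU : Unq K c r)
    (hnz : ∀ (n : ℕ) (G : MvPolynomial (Vr N) K),
      Pool.Agent.Helper28.M.Jdet c hr ^ n * G ∈ idl c → G ∈ idl c)
    (P : Ideal (MvPolynomial (Vr N) K)) (hP : IsDom (idl c) (∑ r, N r - l) P) : P ≤ idl c := by
  intro G hG
  have := hP.prime
  have hx := Pool.Agent.Helper37.M.full_of_dom h c P hP
  set x : Pt N (FractionRing (MvPolynomial (Vr N) K ⧸ P)) :=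
    fun r i => algebraMap (MvPolynomial (Vr N) K ⧸ P)
      (FractionRing (MvPolynomial (Vr N) K ⧸ P)) (Ideal.Quotient.mk P (ch K N r i)) with hxdef
  have hxU : UPt K c r x := ⟨hx.eq, hx.one, hx.ind r, hx.tr r hr⟩
  have hG0 : aeval (fun v : Vr N => x v.1 v.2.succ) G = 0 := by
    have h1 : aeval (fun v : Vr N => x v.1 v.2.succ) =
        (IsScalarTower.toAlgHom K (MvPolynomial (Vr N) K ⧸ P)
          (FractionRing (MvPolynomial (Vr N) K ⧸ P))).comp (Ideal.Quotient.mkₐ K P) := by
      apply MvPolynomial.algHom_ext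
      rintro ⟨j, q⟩
      rw [aeval_X]
      show algebraMap (MvPolynomial (Vr N) K ⧸ P) _ (Ideal.Quotient.mk P (ch K N j q.succ)) =
        algebraMap (MvPolynomial (Vr N) K ⧸ P) _ (Ideal.Quotient.mk P (X ⟨j, q⟩))
      congr 2
    rw [h1]
    show algebraMap (MvPolynomial (Vr N) K ⧸ P) _ (Ideal.Quotient.mk P G) = 0
    rw [Ideal.Quotient.eq_zero_iff_mem.2 hG, map_zero]
  obtain ⟨n, hn⟩ := exists_pow_mem_of_points (Pool.Agent.Helper28.M.vj (N := N) hr) (vj_inj hr)
    (fun i => Fm (fun e => C (c e)) (ch K N) i) G (by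
      intro Ω _ _ y hy hF _
      have h1 := hU _ Ω x (cpt y) hxU (upt_of_ind c hr y hy hF) G hG0
      have h2 : (fun v : Vr N => cpt y v.1 v.2.succ) = y := by
        funext v
        exact cpt_succ y v.1 v.2
      rwa [h2] at h1)
  exact hnz n G hn

/-- For general coefficients the ideal is prime and dominant. -/
theorem exists_prime (h : Ty N d) (hR : ∃ r, N r = l + 1)
    (hdom : ∀ (K : Type) [Field K] [CharZero K] (c : Tx N d → K), AllNice K c →
      ∃ P, IsDom (idl c) (∑ r, N r - l) P)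
    (hnice : ∃ Δ : MvPolynomial (Tx N d) ℚ, Δ ≠ 0 ∧ ∀ (K : Type) [Field K] [CharZero K]
      (c : Tx N d → K), aeval c Δ ≠ 0 → AllNice K c)
    (hunq : ∀ r, N r = l + 1 → ∃ Δ : MvPolynomial (Tx N d) ℚ, Δ ≠ 0 ∧
      ∀ (K : Type) [Field K] [CharZero K] (c : Tx N d → K), aeval c Δ ≠ 0 → Unq K c r) :
    ∃ Δ : MvPolynomial (Tx N d) ℚ, Δ ≠ 0 ∧ ∀ (K : Type) [Field K] [CharZero K]
      (c : Tx N d → K), aeval c Δ ≠ 0 → IsDom (idl c) (∑ r, N r - l) (idl c) := by
  obtain ⟨r, hr⟩ := hR
  obtain ⟨Δ1, h1, H1⟩ := hnice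
  obtain ⟨Δ2, h2, H2⟩ := hunq r hr
  obtain ⟨Δ3, h3, H3⟩ := Pool.Agent.Helper28.M.jac_nzd h hr
  refine ⟨Δ1 * Δ2 * Δ3, mul_ne_zero (mul_ne_zero h1 h2) h3, fun K _ _ c hc => ?_⟩
  rw [map_mul, map_mul] at hc
  obtain ⟨P, hP⟩ := hdom K c (H1 K c (left_ne_zero_of_mul (left_ne_zero_of_mul hc)))
  have hle := dom_le h c hr (H2 K c (right_ne_zero_of_mul (left_ne_zero_of_mul hc)))
    (H3 K c (right_ne_zero_of_mul hc)) P hP
  have heq : idl c = P := le_antisymm hP.le hle
  have hP' := hP
  rw [← heq] at hP'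
  exact hP'

end Pool.Agent.Helper24.MP
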