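import Mathlib

/-!
# Mixed products: functions common to all projections (abstract part)

`R = K[W]` polynomial ring (the coordinates of all factors except one), `S` a domain containing
`R`.  `wr A B v = d_v A * B - A * d_v B`.

* `wr_zero_inv`: a function `A / B` whose transform `A (y - τ ξ) / B (y - τ ξ)` is again a
  function `A' / B'` of the same coordinates has vanishing `wr` in the directions in the span of
  the values of `ξ` at the places where `τ` vanishes.
* `wr_zero_der`: the same for a derivation.
* `const_of_wr`: if all `wr A B v` vanish then `A / B` is a constant.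
-/

namespace Pool.Agent.Helper24.MP

open MvPolynomial

section wr

variable {W K : Type*} [Field K]

/-- the numerator of the derivative of `A / B` -/
noncomputable def wr (A B : MvPolynomial W K) (v : W) : MvPolynomial W K :=
  pderiv v A * B - A * pderiv v B

end wr

/-! ## Taylor expansion -/

section taylor

variable {W K S : Type*} [Field K] [CommRing S] [Algebra K S]

/-- Taylor expansion modulo `t ^ 2`. -/
theorem taylor (y h : W → S) (t : S) [Fintype W] (A : MvPolynomial W K) :
    ∃ s : S, aeval (fun v => y v + t * h v) A =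
      aeval y A + t * ∑ v, h v * aeval y (pderiv v A) + t ^ 2 * s := by
  classical
  induction A using MvPolynomial.induction_on with
  | C a =>
    refine ⟨0, ?_⟩
    simp
  | add p q hp hq =>
    obtain ⟨s, hs⟩ := hp
    obtain ⟨s', hs'⟩ := hq
    refine ⟨s + s', ?_⟩
    simp only [map_add, hs, hs', mul_add, Finset.sum_add_distrib]
    ring
  | mul_X p w hp =>
    obtain ⟨s, hs⟩ := hp
    have e1 : ∀ v, aeval y (pderiv v (p * X w)) =
        aeval y (pderiv v p) * y w + aeval y p * (if w = v then 1 else 0) := by
      intro v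
      rw [Derivation.leibniz, pderiv_X, smul_eq_mul, smul_eq_mul, map_add, map_mul, map_mul,
        aeval_X]
      by_cases hvw : w = v
      · subst hvw
        simp
        ring
      · simp [hvw]
        ring
    refine ⟨(∑ v, h v * aeval y (pderiv v p)) * h w + s * (y w + t * h w), ?_⟩
    have e2 : ∑ v, h v * aeval y (pderiv v (p * X w)) =
        (∑ v, h v * aeval y (pderiv v p)) * y w + aeval y p * h w := by
      simp only [e1, mul_add, Finset.sum_add_distrib, Finset.sum_mul]
      congr 1
      · refine Finset.sum_congr rfl fun v _ => ?_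
        ring
      · simp [mul_comm, Finset.sum_ite_eq]
    rw [map_mul, aeval_X, hs, map_mul, aeval_X, e2]
    ring

end taylor

/-! ## an involution that moves along `ξ` -/

section inv

variable {W K S L : Type*} [Field K] [CommRing S] [IsDomain S] [Algebra K S] [Fintype W]
  [Field L] [Algebra K L]

/-- `y` the coordinates in `S`, `th a` evaluations of `S` with the same restriction to `K[y]`
which kill `t`, `h` supported on `J` with span condition. -/
theorem wr_zero_inv (y : W → S) (h : W → S) (t : S) (ht : t ≠ 0) {I : Type*} [Nonempty I]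
    (th : I → S →ₐ[K] L) (y' : W → L) (hy' : ∀ a v, th a (y v) = y' v)
    (hinj : Function.Injective (aeval y' : MvPolynomial W K → L))
    (hth : ∀ a, th a t = 0) (J : Set W)
    (hsp : ∀ w : W → L, (∀ a, ∑ v, th a (h v) * w v = 0) → ∀ v ∈ J, w v = 0)
    (A B A' B' : MvPolynomial W K) (hB' : B' ≠ 0)
    (hrel : aeval (fun v => y v + t * h v) A * aeval y B' =
      aeval (fun v => y v + t * h v) B * aeval y A') :
    A * B' = B * A' ∧ ∀ v ∈ J, wr A B v = 0 := by
  obtain ⟨sA, hA⟩ := taylor y h t A
  obtain ⟨sB, hB⟩ := taylor y h t B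
  have hthA : ∀ a (P : MvPolynomial W K), th a (aeval y P) = aeval y' P := by
    intro a P
    rw [comp_aeval_apply, funext (hy' a)]
  -- first step
  have h1 : A * B' = B * A' := by
    obtain ⟨a⟩ := (inferInstance : Nonempty I)
    refine hinj ?_
    have := congrArg (th a) hrel
    rw [hA, hB] at this
    simp only [map_mul, map_add, hthA, hth, zero_mul, add_zero, map_pow] at this
    simpa [map_mul] using this
  -- second step
  have h2 : (∑ v, h v * aeval y (pderiv v A)) * aeval y B' -
      (∑ v, h v * aeval y (pderiv v B)) * aeval y A' = t * (sB * aeval y A' - sA * aeval y B') := by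
    refine mul_left_cancel₀ ht ?_
    rw [hA, hB] at hrel
    have h3 : aeval y A * aeval y B' = aeval y B * aeval y A' := by
      rw [← map_mul, ← map_mul, h1]
    linear_combination hrel - h3
  have h4 : ∀ v ∈ J, pderiv v A * B' - pderiv v B * A' = 0 := by
    intro v hv
    refine hinj ?_
    refine (hsp (fun v => aeval y' (pderiv v A * B' - pderiv v B * A')) (fun a => ?_) v hv).trans
      (map_zero _).symm
    have h5 := congrArg (th a) h2
    simp only [map_mul, map_sub, map_sum, hthA, hth, zero_mul] at h5
    rw [Finset.sum_mul, Finset.sum_mul, ← Finset.sum_sub_distrib] at h5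
    rw [← h5]
    refine Finset.sum_congr rfl fun v _ => ?_
    simp only [map_sub, map_mul]
    ring
  refine ⟨h1, fun v hv => ?_⟩
  refine mul_left_cancel₀ hB' ?_
  rw [wr, mul_zero]
  linear_combination B * h4 v hv - pderiv v B * h1

end inv

/-! ## a derivation -/

section der

variable {W K S L : Type*} [Field K] [CommRing S] [IsDomain S] [Algebra K S] [Fintype W]
  [Field L] [Algebra K L]

theorem wr_zero_der (y : W → S) (D : Derivation K S S) {I : Type*}
    (th : I → S →ₐ[K] L) (y' : W → L) (hy' : ∀ a v, th a (y v) = y' v)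
    (hinj : Function.Injective (aeval y' : MvPolynomial W K → L))
    (J : Set W)
    (hsp : ∀ w : W → L, (∀ a, ∑ v, th a (D (y v)) * w v = 0) → ∀ v ∈ J, w v = 0)
    (A B : MvPolynomial W K) (P Q : S) (hQ : Q ≠ 0) (hDP : D P = 0) (hDQ : D Q = 0)
    (hrel : aeval y A * Q = aeval y B * P) :
    ∀ v ∈ J, wr A B v = 0 := by
  have hthA : ∀ a (P : MvPolynomial W K), th a (aeval y P) = aeval y' P := by
    intro a P
    rw [comp_aeval_apply, funext (hy' a)]
  have hDA : ∀ A : MvPolynomial W K, D (aeval y A) = ∑ v, D (y v) * aeval y (pderiv v A) := by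
    intro A
    classical
    induction A using MvPolynomial.induction_on with
    | C a => simp
    | add p q hp hq => simp only [map_add, hp, hq, mul_add, Finset.sum_add_distrib]
    | mul_X p w hp =>
      have e1 : ∀ v, aeval y (pderiv v (p * X w)) =
          aeval y (pderiv v p) * y w + aeval y p * (if w = v then 1 else 0) := by
        intro v
        rw [Derivation.leibniz, pderiv_X, smul_eq_mul, smul_eq_mul, map_add, map_mul, map_mul,
          aeval_X]
        by_cases hvw : w = v
        · subst hvw
          simp
          ring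
        · simp [hvw]
          ring
      rw [map_mul, aeval_X, Derivation.leibniz, hp]
      simp only [e1, mul_add, Finset.sum_add_distrib, smul_eq_mul]
      have e2 : ∑ v, D (y v) * (aeval y p * (if w = v then 1 else 0)) = aeval y p * D (y w) := by
        simp [mul_comm, Finset.sum_ite_eq]
      rw [e2, Finset.mul_sum, add_comm]
      congr 1
      refine Finset.sum_congr rfl fun v _ => ?_
      ring
  have h1 := congrArg D hrel
  rw [Derivation.leibniz, Derivation.leibniz, hDP, hDQ, smul_zero, smul_zero, zero_add, zero_add,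
    smul_eq_mul, smul_eq_mul] at h1
  have h2 : D (aeval y A) * aeval y B - aeval y A * D (aeval y B) = 0 := by
    have h3 : Q * (D (aeval y A) * aeval y B - aeval y A * D (aeval y B)) = 0 := by
      linear_combination aeval y B * h1 - D (aeval y B) * hrel
    exact (mul_eq_zero.mp h3).resolve_left hQ
  have h4 : ∀ a, ∑ v, th a (D (y v)) * aeval y' (wr A B v) = 0 := by
    intro a
    have h5 := congrArg (th a) h2
    rw [hDA, hDA] at h5
    simp only [map_mul, map_sub, map_sum, hthA, map_zero] at h5
    rw [← h5, Finset.sum_mul, Finset.mul_sum, ← Finset.sum_sub_distrib]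
    refine Finset.sum_congr rfl fun v _ => ?_
    rw [wr, map_sub, map_mul, map_mul]
    ring
  intro v hv
  exact hinj ((hsp _ h4 v hv).trans (map_zero _).symm)

end der

/-! ## constants -/

section const

variable {W K : Type*} [Field K] [CharZero K]

theorem const_of_pderiv (A : MvPolynomial W K) (h : ∀ v, pderiv v A = 0) :
    A = C (coeff 0 A) := by
  classical
  ext m
  rw [coeff_C]
  split_ifs with hm
  · rw [hm]
  · obtain ⟨v, hv⟩ : ∃ v, m v ≠ 0 := by
      by_contra hcon
      push Not at hcon
      exact hm (Finsupp.ext fun v => (hcon v).symm)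
    have h1 := congrArg (coeff (m - Finsupp.single v 1)) (h v)
    rw [coeff_pderiv, coeff_zero] at h1
    have h2 : m - Finsupp.single v 1 + Finsupp.single v 1 = m := by
      refine tsub_add_cancel_of_le ?_
      rw [Finsupp.single_le_iff]
      omega
    rw [h2] at h1
    rcases mul_eq_zero.mp h1 with h3 | h3
    · exact h3
    · exfalso
      exact Nat.cast_add_one_ne_zero _ h3

omit [CharZero K] in
theorem totalDegree_pderiv_lt (p : MvPolynomial W K) (v : W) (h : pderiv v p ≠ 0) :
    totalDegree (pderiv v p) < totalDegree p := by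
  classical
  obtain ⟨m, hm, hmd⟩ : ∃ m ∈ (pderiv v p).support, (pderiv v p).totalDegree =
      m.sum fun _ e => e := by
    have hne : (pderiv v p).support.Nonempty := support_nonempty.mpr h
    obtain ⟨m, hm, h2⟩ := Finset.exists_mem_eq_sup _ hne fun m : W →₀ ℕ => m.sum fun _ e => e
    exact ⟨m, hm, h2⟩
  rw [hmd]
  have h1 : coeff (m + Finsupp.single v 1) p ≠ 0 := by
    intro h0
    rw [mem_support_iff, coeff_pderiv, h0, zero_mul] at hm
    exact hm rfl
  have h2 := le_totalDegree (mem_support_iff.mpr h1)
  have h3 : ((m + Finsupp.single v 1).sum fun _ e => e) = (m.sum fun _ e => e) + 1 := by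
    rw [Finsupp.sum_add_index' (fun _ => rfl) (fun _ _ _ => rfl), Finsupp.sum_single_index rfl]
  omega

omit [CharZero K] in
theorem pderiv_of_dvd (B : MvPolynomial W K) (v : W) (h : B ∣ pderiv v B) : pderiv v B = 0 := by
  by_contra h0
  obtain ⟨c, hc⟩ := h
  have hB : B ≠ 0 := fun h1 => h0 (by rw [h1, map_zero])
  have hc0 : c ≠ 0 := fun h1 => h0 (by rw [hc, h1, mul_zero])
  have h1 := totalDegree_pderiv_lt B v h0
  rw [hc, totalDegree_mul_of_isDomain hB hc0] at h1
  omega

theorem const_of_wr (A B : MvPolynomial W K) (hB : B ≠ 0) (h : ∀ v, wr A B v = 0) :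
    ∃ c : K, A = C c * B := by
  classical
  obtain ⟨A1, B1, g, hcop, rfl, rfl⟩ := UniqueFactorizationMonoid.exists_reduced_factors' A B hB
  have hg : g ≠ 0 := left_ne_zero_of_mul hB
  have hB1 : B1 ≠ 0 := right_ne_zero_of_mul hB
  have h1 : ∀ v, pderiv v A1 * B1 = A1 * pderiv v B1 := by
    intro v
    have h2 := h v
    have h3 : g ^ 2 * (pderiv v A1 * B1 - A1 * pderiv v B1) = 0 := by
      rw [← h2, wr, Derivation.leibniz, Derivation.leibniz]
      simp only [smul_eq_mul]
      ring
    exact sub_eq_zero.mp ((mul_eq_zero.mp h3).resolve_left (pow_ne_zero 2 hg))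
  have hB2 : ∀ v, pderiv v B1 = 0 := fun v =>
    pderiv_of_dvd B1 v (hcop.symm.dvd_of_dvd_mul_left ⟨pderiv v A1, by rw [← h1 v]; ring⟩)
  have hA2 : ∀ v, pderiv v A1 = 0 := fun v => by
    have h4 := h1 v
    rw [hB2 v, mul_zero] at h4
    exact (mul_eq_zero.mp h4).resolve_right hB1
  have hA3 := const_of_pderiv A1 hA2
  have hB3 := const_of_pderiv B1 hB2
  have hb : coeff 0 B1 ≠ 0 := by
    intro h0
    rw [h0, map_zero] at hB3
    exact hB1 hB3
  refine ⟨coeff 0 A1 / coeff 0 B1, ?_⟩
  have h5 : A1 = C (coeff 0 A1 / coeff 0 B1) * B1 := by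
    rw [hB3, coeff_C, if_pos rfl, ← map_mul, div_mul_cancel₀ _ hb]
    exact hA3
  rw [← mul_assoc, mul_comm (C _) g, mul_assoc, ← h5]

end const

end Pool.Agent.Helper24.MP
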