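import Mathlib
import Pool.Agent.Helper24.MP.Abs

/-!
# Mixed products: functions in several subfields

`S` the chart ring, `E` its field of fractions, `y` the coordinates of all factors except one,
`B = K(y)`.  `common`: an element of `B`, of `σ_j B` (factors with an involution) and of the other
subfields `C_j` is a constant.
-/

namespace Pool.Agent.Helper24.MP

open MvPolynomial

section chart

variable {W K S E L : Type*} [Fintype W] [Field K] [CommRing S] [IsDomain S] [Algebra K S]
  [Field E] [Algebra K E] [Algebra S E] [IsScalarTower K S E] [IsFractionRing S E]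
  [Field L] [Algebra K L]

theorem wr_zero_inv' (y h : W → S) (κ ψ : S) (hκ : κ ≠ 0) (hψ : ψ ≠ 0) {I : Type*} [Nonempty I]
    (th : I → S →ₐ[K] L) (y' : W → L) (hy' : ∀ a v, th a (y v) = y' v)
    (hinj : Function.Injective (aeval y' : MvPolynomial W K → L))
    (hthκ : ∀ a, th a κ ≠ 0) (hthψ : ∀ a, th a ψ = 0) (J : Set W)
    (hsp : ∀ w : W → L, (∀ a, ∑ v, th a (h v) * w v = 0) → ∀ v ∈ J, w v = 0)
    (A B A' B' : MvPolynomial W K) (hB' : B' ≠ 0)
    (hrel : aeval (fun v => algebraMap S E (y v) +
        algebraMap S E ψ / algebraMap S E κ * algebraMap S E (h v)) A *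
        aeval (fun v => algebraMap S E (y v)) B' =
      aeval (fun v => algebraMap S E (y v) +
        algebraMap S E ψ / algebraMap S E κ * algebraMap S E (h v)) B *
        aeval (fun v => algebraMap S E (y v)) A') :
    A * B' = B * A' ∧ ∀ v ∈ J, wr A B v = 0 := by
  let T := Localization.Away κ
  have hle : Submonoid.powers κ ≤ nonZeroDivisors S :=
    powers_le_nonZeroDivisors_of_noZeroDivisors hκ
  have : IsDomain T := IsLocalization.isDomain_localization hle
  let φ : T →ₐ[K] E := IsLocalization.liftAlgHom (M := Submonoid.powers κ)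
    (f := IsScalarTower.toAlgHom K S E) (by
      rintro ⟨_, n, rfl⟩
      rw [isUnit_iff_ne_zero]
      change algebraMap S E (κ ^ n) ≠ 0
      rw [Ne, map_eq_zero_iff _ (IsFractionRing.injective S E)]
      exact pow_ne_zero n hκ)
  have hφ : ∀ s : S, φ (algebraMap S T s) = algebraMap S E s := fun s =>
    IsLocalization.lift_eq _ s
  have hφi : Function.Injective φ := by
    change Function.Injective (IsLocalization.lift (M := Submonoid.powers κ) (S := T) _)
    rw [IsLocalization.lift_injective_iff]
    intro a b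
    constructor
    · intro hab
      have h1 : algebraMap S T a = algebraMap S T b := hab
      have h2 := IsLocalization.injective T hle h1
      rw [h2]
    · intro hab
      exact congrArg _ (IsFractionRing.injective S E hab)
  let th' : I → T →ₐ[K] L := fun a => IsLocalization.liftAlgHom (M := Submonoid.powers κ)
    (f := th a) (by
      rintro ⟨_, n, rfl⟩
      rw [isUnit_iff_ne_zero]
      change th a (κ ^ n) ≠ 0
      rw [map_pow]
      exact pow_ne_zero n (hthκ a))
  have hth' : ∀ a s, th' a (algebraMap S T s) = th a s := fun a s =>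
    IsLocalization.lift_eq _ s
  let u : T := IsLocalization.mk' T (1 : S) (⟨κ, 1, pow_one κ⟩ : Submonoid.powers κ)
  have hu : u * algebraMap S T κ = 1 := by
    have := IsLocalization.mk'_spec T (1 : S) (⟨κ, 1, pow_one κ⟩ : Submonoid.powers κ)
    rw [map_one] at this
    exact this
  have hφu : φ u = (algebraMap S E κ)⁻¹ := by
    have h1 := congrArg φ hu
    rw [map_mul, hφ, map_one] at h1
    exact eq_inv_of_mul_eq_one_left h1
  let t : T := algebraMap S T ψ * u
  have ht : t ≠ 0 := by
    intro h0
    have h1 : algebraMap S T ψ = 0 := by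
      have : algebraMap S T ψ * u * algebraMap S T κ = 0 := by rw [show _ * u = t from rfl, h0, zero_mul]
      rw [mul_assoc, hu, mul_one] at this
      exact this
    exact hψ ((map_eq_zero_iff _ (IsLocalization.injective T hle)).mp h1)
  have hφt : φ t = algebraMap S E ψ / algebraMap S E κ := by
    change φ (algebraMap S T ψ * u) = _
    rw [map_mul, hφ, hφu, div_eq_mul_inv]
  have e1 : ∀ P : MvPolynomial W K, φ (aeval (fun v => algebraMap S T (y v) +
      t * algebraMap S T (h v)) P) = aeval (fun v => algebraMap S E (y v) +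
        algebraMap S E ψ / algebraMap S E κ * algebraMap S E (h v)) P := by
    intro P
    rw [comp_aeval_apply]
    congr 2
    funext v
    rw [map_add, map_mul, hφ, hφ, hφt]
  have e2 : ∀ P : MvPolynomial W K, φ (aeval (fun v => algebraMap S T (y v)) P) =
      aeval (fun v => algebraMap S E (y v)) P := by
    intro P
    rw [comp_aeval_apply]
    congr 2
    funext v
    rw [hφ]
  refine wr_zero_inv (S := T) (fun v => algebraMap S T (y v)) (fun v => algebraMap S T (h v)) t ht
    th' y' (fun a v => (hth' a _).trans (hy' a v)) hinj (fun a => ?_) J (fun w hw => ?_)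
    A B A' B' hB' (hφi ?_)
  · change th' a (algebraMap S T ψ * u) = 0
    rw [map_mul, hth', hthψ, zero_mul]
  · refine hsp w fun a => ?_
    rw [← hw a]
    refine Finset.sum_congr rfl fun v _ => ?_
    rw [hth']
  · rw [map_mul, map_mul, e1, e1, e2, e2]
    exact hrel

/-- elements of `B ∩ σ B` -/
theorem wr_of_mem_map (y h : W → S) (κ ψ : S) (hκ : κ ≠ 0) (hψ : ψ ≠ 0) {I : Type*} [Nonempty I]
    (hy : Function.Injective (aeval (fun v => algebraMap S E (y v)) : MvPolynomial W K → E))
    (th : I → S →ₐ[K] L) (y' : W → L) (hy' : ∀ a v, th a (y v) = y' v)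
    (hinj : Function.Injective (aeval y' : MvPolynomial W K → L))
    (hthκ : ∀ a, th a κ ≠ 0) (hthψ : ∀ a, th a ψ = 0) (J : Set W)
    (hsp : ∀ w : W → L, (∀ a, ∑ v, th a (h v) * w v = 0) → ∀ v ∈ J, w v = 0)
    (σ : E ≃ₐ[K] E) (hσ : ∀ v, σ (algebraMap S E (y v)) = algebraMap S E (y v) +
      algebraMap S E ψ / algebraMap S E κ * algebraMap S E (h v))
    (e : E) (A B : MvPolynomial W K) (hB : B ≠ 0)
    (he : e = aeval (fun v => algebraMap S E (y v)) A / aeval (fun v => algebraMap S E (y v)) B)
    (he2 : e ∈ (IntermediateField.adjoin K (Set.range fun v => algebraMap S E (y v))).map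
      (σ : E →ₐ[K] E)) : ∀ v ∈ J, wr A B v = 0 := by
  obtain ⟨e', he', hee⟩ := he2
  obtain ⟨A', B', hB', rfl⟩ : ∃ A' B' : MvPolynomial W K, B' ≠ 0 ∧
      e' = aeval (fun v => algebraMap S E (y v)) A' / aeval (fun v => algebraMap S E (y v)) B' := by
    obtain ⟨r, s, hrs⟩ := (IntermediateField.mem_adjoin_range_iff K _ _).mp he'
    by_cases hs : s = 0
    · refine ⟨0, 1, one_ne_zero, ?_⟩
      rw [hrs, hs]
      simp
    · exact ⟨r, s, hs, hrs⟩
  have hne : ∀ P : MvPolynomial W K, P ≠ 0 → aeval (fun v => algebraMap S E (y v)) P ≠ 0 :=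
    fun P hP h0 => hP (hy (h0.trans (map_zero _).symm))
  have hσa : ∀ P : MvPolynomial W K, σ (aeval (fun v => algebraMap S E (y v)) P) =
      aeval (fun v => algebraMap S E (y v) +
        algebraMap S E ψ / algebraMap S E κ * algebraMap S E (h v)) P := by
    intro P
    have := comp_aeval_apply (fun v => algebraMap S E (y v)) (σ : E →ₐ[K] E) P
    rw [funext fun v => show (σ : E →ₐ[K] E) (algebraMap S E (y v)) = _ from hσ v] at this
    exact this
  have h1 : σ (aeval (fun v => algebraMap S E (y v)) A') /
      σ (aeval (fun v => algebraMap S E (y v)) B') =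
      aeval (fun v => algebraMap S E (y v)) A / aeval (fun v => algebraMap S E (y v)) B := by
    rw [← map_div₀, ← he]
    exact hee
  have h2 : σ (aeval (fun v => algebraMap S E (y v)) B') ≠ 0 :=
    (map_ne_zero_iff σ σ.injective).mpr (hne B' hB')
  rw [div_eq_div_iff h2 (hne B hB), hσa, hσa] at h1
  obtain ⟨h3, h4⟩ := wr_zero_inv' y h κ ψ hκ hψ th y' hy' hinj hthκ hthψ J hsp A' B' A B hB
    (by rw [h1]; ring)
  intro v hv
  have h5 := h4 v hv
  have h6 := congrArg (pderiv v) h3
  rw [Derivation.leibniz, Derivation.leibniz] at h6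
  simp only [smul_eq_mul] at h6
  rw [wr] at h5 ⊢
  refine (mul_eq_zero.mp (?_ : B' ^ 2 * (pderiv v A * B - A * pderiv v B) = 0)).resolve_left
    (pow_ne_zero 2 hB')
  linear_combination B ^ 2 * h5 - B * B' * h6 + (B * pderiv v B' + B' * pderiv v B) * h3

/-- elements of `B` which are killed by a derivation -/
theorem wr_of_mem_der (y : W → S) {I : Type*}
    (hy : Function.Injective (aeval (fun v => algebraMap S E (y v)) : MvPolynomial W K → E))
    (D : Derivation K S S) (th : I → S →ₐ[K] L) (y' : W → L) (hy' : ∀ a v, th a (y v) = y' v)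
    (hinj : Function.Injective (aeval y' : MvPolynomial W K → L)) (J : Set W)
    (hsp : ∀ w : W → L, (∀ a, ∑ v, th a (D (y v)) * w v = 0) → ∀ v ∈ J, w v = 0)
    (e : E) (A B : MvPolynomial W K) (hB : B ≠ 0)
    (he : e = aeval (fun v => algebraMap S E (y v)) A / aeval (fun v => algebraMap S E (y v)) B)
    (P Q : S) (hQ : Q ≠ 0) (hDP : D P = 0) (hDQ : D Q = 0)
    (he2 : e = algebraMap S E P / algebraMap S E Q) : ∀ v ∈ J, wr A B v = 0 := by
  have hne : ∀ P : MvPolynomial W K, P ≠ 0 → aeval (fun v => algebraMap S E (y v)) P ≠ 0 :=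
    fun P hP h0 => hP (hy (h0.trans (map_zero _).symm))
  have hya : ∀ P : MvPolynomial W K, algebraMap S E (aeval y P) =
      aeval (fun v => algebraMap S E (y v)) P := by
    intro P
    exact comp_aeval_apply y (IsScalarTower.toAlgHom K S E) P
  refine wr_zero_der y D th y' hy' hinj J hsp A B P Q hQ hDP hDQ
    (IsFractionRing.injective S E ?_)
  rw [map_mul, map_mul, hya, hya]
  rw [he2, div_eq_div_iff ((map_ne_zero_iff _ (IsFractionRing.injective S E)).mpr hQ)
    (hne B hB)] at he
  rw [← he]
  ring

omit [Fintype W] [IsDomain S] [Algebra K S] [IsScalarTower K S E] [IsFractionRing S E] in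
theorem mem_bot_of_wr [Finite W] [CharZero K] (y : W → S)
    (e : E) (A B : MvPolynomial W K) (hB : B ≠ 0)
    (hy : Function.Injective (aeval (fun v => algebraMap S E (y v)) : MvPolynomial W K → E))
    (he : e = aeval (fun v => algebraMap S E (y v)) A / aeval (fun v => algebraMap S E (y v)) B)
    (h : ∀ v, wr A B v = 0) : ∃ c : K, e = algebraMap K E c := by
  obtain ⟨c, rfl⟩ := const_of_wr A B hB h
  refine ⟨c, ?_⟩
  have hne : aeval (fun v => algebraMap S E (y v)) B ≠ 0 :=
    fun h0 => hB (hy (h0.trans (map_zero _).symm))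
  rw [he, map_mul, mul_div_assoc, div_self hne, mul_one, aeval_C]

end chart

end Pool.Agent.Helper24.MP
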