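import Mathlib
import Pool.Agent.Helper24.MP.Et2

/-!
# Slices

`ε : τ → σ` injective, `T` the complement of its range, `L = Frac K[T]`. `thet : K[σ] → L[τ]`
gives the variables in `T` the values `t`. If the ideal of the images of the `F i` is prime and a
Jacobian determinant in variables of `τ` is not a zero divisor modulo `(F)`, then `(F)` is the
contraction of the ideal of the slice, so it is prime, with transcendence degree `|T|` more.
-/

set_option autoImplicit false

namespace Pool.Agent.Helper24.MP

open MvPolynomial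

/-- The tower formula. -/
theorem trdeg_abs {K K' A B E : Type} [Field K] [Field K'] [CommRing A] [IsDomain A]
    [CommRing B] [IsDomain B] [Field E] [Algebra K A] [Algebra K K'] [Algebra K' B]
    [Algebra K' E] [Algebra K E] [Algebra B E] [IsFractionRing B E] [IsScalarTower K' B E]
    [IsScalarTower K K' E] (ψ : A →+* E) (hψ : Function.Injective ψ)
    (hK : ∀ a : K, ψ (algebraMap K A a) = algebraMap K E a)
    (halg : ∀ S : Subfield E, (∀ a, ψ a ∈ S) → ∀ z, z ∈ S) :
    Algebra.trdeg K A = Algebra.trdeg K K' + Algebra.trdeg K' B := by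
  let _ : Algebra A E := ψ.toAlgebra
  have hAE : ∀ a, algebraMap A E a = ψ a := fun _ => rfl
  have htow : IsScalarTower K A E := IsScalarTower.of_algebraMap_eq fun a => (hK a).symm
  have hfA : FaithfulSMul A E := (faithfulSMul_iff_algebraMap_injective A E).2 hψ
  have hint : Algebra.IsAlgebraic A E := by
    let S : Subfield E :=
      { carrier := {z | IsAlgebraic A z}
        mul_mem' := fun ha hb => IsAlgebraic.mul ha hb
        one_mem' := isAlgebraic_one
        add_mem' := fun ha hb => IsAlgebraic.add ha hb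
        zero_mem' := isAlgebraic_zero
        neg_mem' := fun ha => IsAlgebraic.neg ha
        inv_mem' := fun _ ha => IsAlgebraic.inv ha }
    exact ⟨halg S fun a => isAlgebraic_algebraMap (A := E) a⟩
  have hfB : FaithfulSMul B E :=
    (faithfulSMul_iff_algebraMap_injective B E).2 (IsFractionRing.injective B E)
  have hinB : Algebra.IsAlgebraic B E :=
    IsLocalization.isAlgebraic E (nonZeroDivisors B)
  have h1 := _root_.trdeg_add_eq K A (A := E)
  have h2 := _root_.trdeg_add_eq K K' (A := E)
  have h3 := _root_.trdeg_add_eq K' B (A := E)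
  have z1 : Algebra.trdeg A E = 0 := _root_.trdeg_eq_zero
  have z2 : Algebra.trdeg B E = 0 := _root_.trdeg_eq_zero
  rw [z1, add_zero] at h1
  rw [z2, add_zero] at h3
  rw [h1, ← h2, ← h3]

section slice

variable {σ τ : Type} {K : Type} [Field K] (ε : τ → σ) (hε : Function.Injective ε)

variable (L : Type) [Field L] [Algebra (MvPolynomial {q : σ // q ∉ Set.range ε} K) L]

/-- The variables outside the range of `ε` become scalars. -/
noncomputable def thet : MvPolynomial σ K →+* MvPolynomial τ L :=
  (MvPolynomial.map (algebraMap (MvPolynomial {q : σ // q ∉ Set.range ε} K) L)).comp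
    (sep K ε hε : MvPolynomial σ K →+* _)

theorem thet_free (i : τ) : thet ε hε L (X (ε i) : MvPolynomial σ K) = X i := by
  show MvPolynomial.map _ (sep K ε hε (X (ε i))) = _
  rw [sep_unk, map_X]

theorem thet_par (q : {q : σ // q ∉ Set.range ε}) : thet ε hε L (X q : MvPolynomial σ K) =
    C (algebraMap (MvPolynomial {q : σ // q ∉ Set.range ε} K) L (X q)) := by
  show MvPolynomial.map _ (sep K ε hε (X q)) = _
  rw [sep_par, map_C]

theorem thet_inj [IsFractionRing (MvPolynomial {q : σ // q ∉ Set.range ε} K) L] :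
    Function.Injective (thet (K := K) ε hε L) :=
  (MvPolynomial.map_injective _ (IsFractionRing.injective _ _)).comp (sep K ε hε).injective

theorem thet_C' (a : K) : thet ε hε L (C a : MvPolynomial σ K) =
    C (algebraMap (MvPolynomial {q : σ // q ∉ Set.range ε} K) L (C a)) := by
  show MvPolynomial.map _ (sep K ε hε (C a)) = _
  rw [sep_C, map_C]

variable [Algebra K L] [IsScalarTower K (MvPolynomial {q : σ // q ∉ Set.range ε} K) L]

theorem thet_C (a : K) : thet ε hε L (C a : MvPolynomial σ K) = C (algebraMap K L a) := by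
  rw [thet_C', IsScalarTower.algebraMap_apply K
    (MvPolynomial {q : σ // q ∉ Set.range ε} K) L]
  rfl

variable [IsFractionRing (MvPolynomial {q : σ // q ∉ Set.range ε} K) L]

/-- Evaluation at a point with independent parameters factors through the slice. -/
theorem exists_ev {Ω : Type} [Field Ω] [Algebra K Ω]
    (y : σ → Ω) (hy : AlgebraicIndependent K (fun q : {q : σ // q ∉ Set.range ε} => y q)) :
    ∃ ev : MvPolynomial τ L →+* Ω, ∀ G : MvPolynomial σ K, ev (thet ε hε L G) = aeval y G := by
  let α : MvPolynomial {q : σ // q ∉ Set.range ε} K →ₐ[K] Ω :=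
    aeval (fun q : {q : σ // q ∉ Set.range ε} => y q)
  have hα : Function.Injective (α : MvPolynomial {q : σ // q ∉ Set.range ε} K →+* Ω) := hy
  let φ : L →+* Ω := IsFractionRing.lift hα
  have hφ : ∀ a, φ (algebraMap (MvPolynomial {q : σ // q ∉ Set.range ε} K) L a) =
      aeval (fun q : {q : σ // q ∉ Set.range ε} => y q) a := fun a =>
    IsFractionRing.lift_algebraMap hα a
  refine ⟨eval₂Hom φ fun i => y (ε i), fun G => ?_⟩
  induction G using MvPolynomial.induction_on with
  | C a => rw [thet_C', aeval_C, coe_eval₂Hom, eval₂_C, hφ, aeval_C]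
  | add p q hp hq => rw [map_add, map_add, map_add, hp, hq]
  | mul_X p s hp =>
    rw [map_mul, map_mul, map_mul, hp, aeval_X]
    congr 1
    by_cases hs : s ∈ Set.range ε
    · obtain ⟨i, rfl⟩ := hs
      rw [thet_free, coe_eval₂Hom, eval₂_X]
    · have e1 := thet_par (K := K) ε hε L ⟨s, hs⟩
      rw [e1, coe_eval₂Hom, eval₂_C, hφ, aeval_X]

/-- An element of the ideal of the slice is in the ideal. -/
theorem mem_of_slice {I : Type} [Fintype I] [DecidableEq I] (ι : I → τ)
    (hι : Function.Injective ι) (F : I → MvPolynomial σ K)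
    (hnz : ∀ (n : ℕ) (G : MvPolynomial σ K),
      (Matrix.of fun i j => pderiv (ε (ι j)) (F i)).det ^ n * G ∈ Ideal.span (Set.range F) →
        G ∈ Ideal.span (Set.range F)) (G : MvPolynomial σ K)
    (hG : thet ε hε L G ∈ Ideal.span (Set.range fun i => thet ε hε L (F i))) :
    G ∈ Ideal.span (Set.range F) := by
  obtain ⟨n, hn⟩ := exists_pow_mem_of_points (fun j => ε (ι j)) (hε.comp hι) F G (by
    intro Ω _ _ y hy hF _
    have h1 : ∀ q : {q : σ // q ∉ Set.range ε}, q.1 ∉ Set.range fun j => ε (ι j) := by
      rintro q ⟨j, hj⟩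
      exact q.2 ⟨ι j, hj⟩
    have h2 : AlgebraicIndependent K (fun q : {q : σ // q ∉ Set.range ε} => y q) :=
      hy.comp (fun q : {q : σ // q ∉ Set.range ε} => ⟨q.1, h1 q⟩) (by
        intro q q' h
        exact Subtype.ext (Subtype.mk.inj h))
    obtain ⟨ev, hev⟩ := exists_ev ε hε L y h2
    rw [← hev]
    have h3 : Ideal.span (Set.range fun i => thet ε hε L (F i)) ≤ RingHom.ker ev := by
      rw [Ideal.span_le]
      rintro _ ⟨i, rfl⟩
      rw [SetLike.mem_coe, RingHom.mem_ker, hev]
      exact hF i
    exact h3 hG)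
  exact hnz n G hn

/-- The ideal is the contraction of the ideal of the slice. -/
theorem comap_slice {I : Type} [Fintype I] [DecidableEq I] (ι : I → τ)
    (hι : Function.Injective ι) (F : I → MvPolynomial σ K)
    (hnz : ∀ (n : ℕ) (G : MvPolynomial σ K),
      (Matrix.of fun i j => pderiv (ε (ι j)) (F i)).det ^ n * G ∈ Ideal.span (Set.range F) →
        G ∈ Ideal.span (Set.range F)) :
    (Ideal.span (Set.range fun i => thet ε hε L (F i))).comap (thet ε hε L) =
      Ideal.span (Set.range F) := by
  refine le_antisymm (fun G hG => mem_of_slice ε hε L ι hι F hnz G hG) ?_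
  rw [Ideal.span_le]
  rintro _ ⟨i, rfl⟩
  exact Ideal.subset_span ⟨i, rfl⟩

/-- The transcendence degree of the slice. -/
theorem trdeg_slice [Finite σ] (P : Ideal (MvPolynomial τ L)) [hP : P.IsPrime] (m : ℕ)
    (hm : Algebra.trdeg L (MvPolynomial τ L ⧸ P) = m) :
    Algebra.trdeg K (MvPolynomial σ K ⧸ P.comap (thet ε hε L)) =
      (Nat.card {q : σ // q ∉ Set.range ε} + m : ℕ) := by
  classical
  have : Fintype {q : σ // q ∉ Set.range ε} := Fintype.ofFinite _
  have hQ : (P.comap (thet (K := K) ε hε L)).IsPrime := Ideal.comap_isPrime _ _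
  let π : MvPolynomial τ L →+* FractionRing (MvPolynomial τ L ⧸ P) :=
    (algebraMap (MvPolynomial τ L ⧸ P) _).comp (Ideal.Quotient.mk P)
  have hπ : ∀ b, π b = 0 ↔ b ∈ P := by
    intro b
    show algebraMap (MvPolynomial τ L ⧸ P) _ (Ideal.Quotient.mk P b) = 0 ↔ _
    rw [IsFractionRing.to_map_eq_zero_iff, Ideal.Quotient.eq_zero_iff_mem]
  let ψ : (MvPolynomial σ K ⧸ P.comap (thet ε hε L)) →+* FractionRing (MvPolynomial τ L ⧸ P) :=
    Ideal.Quotient.lift _ (π.comp (thet ε hε L)) fun a ha => (hπ _).2 ha
  have hψ : ∀ a, ψ (Ideal.Quotient.mk _ a) = π (thet ε hε L a) := fun a => rfl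
  have hψi : Function.Injective ψ := by
    rw [injective_iff_map_eq_zero]
    intro a ha
    obtain ⟨a, rfl⟩ := Ideal.Quotient.mk_surjective a
    rw [hψ, hπ] at ha
    exact Ideal.Quotient.eq_zero_iff_mem.2 ha
  have hLK : ∀ a : K, algebraMap K (FractionRing (MvPolynomial τ L ⧸ P)) a =
      π (C (algebraMap K L a)) := fun a => rfl
  have h0 := trdeg_abs (K := K) (K' := L) (B := MvPolynomial τ L ⧸ P) ψ hψi
    (fun a => by
      show ψ (Ideal.Quotient.mk _ (C a)) = _
      rw [hψ, thet_C, hLK]) (by
    intro S hS z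
    have hC : ∀ c : L, π (C c) ∈ S := by
      intro c
      obtain ⟨a, b, -, rfl⟩ := IsFractionRing.div_surjective
        (A := MvPolynomial {q : σ // q ∉ Set.range ε} K) c
      have h1 : ∀ a : MvPolynomial {q : σ // q ∉ Set.range ε} K,
          π (C (algebraMap _ L a)) ∈ S := by
        intro a
        induction a using MvPolynomial.induction_on with
        | C a =>
          have h1 := hS (Ideal.Quotient.mk _ (C a))
          rw [hψ, thet_C'] at h1
          exact h1
        | add p q hp hq =>
          rw [map_add, map_add, map_add]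
          exact S.add_mem hp hq
        | mul_X p s hp =>
          rw [map_mul, map_mul, map_mul]
          refine S.mul_mem hp ?_
          have h1 := hS (Ideal.Quotient.mk _ (X s))
          rw [hψ, thet_par] at h1
          exact h1
      have h2 : π (C (algebraMap _ L a / algebraMap _ L b)) =
          π (C (algebraMap _ L a)) / π (C (algebraMap _ L b)) :=
        map_div₀ (π.comp C) _ _
      rw [h2]
      exact S.div_mem (h1 a) (h1 b)
    have hB : ∀ b, π b ∈ S := by
      intro b
      induction b using MvPolynomial.induction_on with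
      | C a => exact hC a
      | add p q hp hq =>
        rw [map_add]
        exact S.add_mem hp hq
      | mul_X p s hp =>
        rw [map_mul]
        refine S.mul_mem hp ?_
        have h1 := hS (Ideal.Quotient.mk _ (X (ε s)))
        rw [hψ, thet_free] at h1
        exact h1
    obtain ⟨a, b, -, rfl⟩ := IsFractionRing.div_surjective (A := MvPolynomial τ L ⧸ P) z
    obtain ⟨a, rfl⟩ := Ideal.Quotient.mk_surjective a
    obtain ⟨b, rfl⟩ := Ideal.Quotient.mk_surjective b
    exact S.div_mem (hB a) (hB b))
  have h4 := _root_.trdeg_add_eq K (MvPolynomial {q : σ // q ∉ Set.range ε} K) (A := L)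
  have : Algebra.IsAlgebraic (MvPolynomial {q : σ // q ∉ Set.range ε} K) L :=
    IsLocalization.isAlgebraic _ (nonZeroDivisors (MvPolynomial {q : σ // q ∉ Set.range ε} K))
  have z3 : Algebra.trdeg (MvPolynomial {q : σ // q ∉ Set.range ε} K) L = 0 :=
    _root_.trdeg_eq_zero
  have h5 : Algebra.trdeg K (MvPolynomial {q : σ // q ∉ Set.range ε} K) =
      (Nat.card {q : σ // q ∉ Set.range ε} : ℕ) := by
    rw [MvPolynomial.trdeg_of_isDomain, Cardinal.mk_fintype, Nat.card_eq_fintype_card,
      Cardinal.lift_natCast]
  rw [z3, add_zero] at h4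
  rw [h0, ← h4, h5, hm, Nat.cast_add]

end slice

end Pool.Agent.Helper24.MP
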